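import Mathlib

/-!
MP_a048aa: the property of the question.
-/

set_option autoImplicit false

namespace Pool.Agent.H75.ZT

/-- The property of the question: `q` is the denominator of a reduced fraction
`[a 0, ..., a n]`, `n ≥ 1`, all digits in `{1,2}`, with `a 1 = a n = 2`. -/
def Admissible (q : ℤ) : Prop :=
  ∃ p : ℤ, IsCoprime p q ∧
    ∃ n : ℕ, ∃ a : ℕ → ℤ, 1 ≤ n ∧
      (∀ i, i ≤ n → (a i = 1 ∨ a i = 2)) ∧
      a 1 = 2 ∧ a n = 2 ∧
      (List.map (fun i => !![a i, 1; 1, 0]) (List.range (n + 1))).prod 0 0 = p ∧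
      (List.map (fun i => !![a i, 1; 1, 0]) (List.range (n + 1))).prod 1 0 = q

end Pool.Agent.H75.ZT
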