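import Pool.Agent.H75.ZT.Def

set_option autoImplicit false

/-!
Three consecutive admissible integers in residue classes (MP_a048aa).

We write `cmat w` for the product of the matrices with rows (a, 1) and (1, 0) over the word `w`.
For every word `v` over `{1,2}`, with reversal `v'`, let `n = K(2 v 1 1 2 1 1 v' 2)`. Then
`n = 2 K(2 v 2) K(2 v 1 2)`, and the continuants `K(2 v' 1 1 1 2 v 1 2)`, `K(2 v' 2 1 1 1 v 1 2)` are
`n + 1`, `n - 1` in some order.
The general lemmas on words, the divisor bound and the count of words are those of `TwinCount`.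
-/

namespace Pool.Agent.H75.ZT

open Matrix

/-- The matrix of continuants of the word `w`. -/
def cmat (w : List ℤ) : Matrix (Fin 2) (Fin 2) ℤ :=
  (w.map (fun a => !![a, 1; 1, 0])).prod

/-- `w` is a word over the alphabet `{1,2}`. -/
def Word12 (w : List ℤ) : Prop := ∀ a ∈ w, a = 1 ∨ a = 2

theorem cmat_nil : cmat [] = 1 := rfl

theorem cmat_cons (a : ℤ) (w : List ℤ) : cmat (a :: w) = !![a, 1; 1, 0] * cmat w := by
  simp [cmat]

theorem cmat_append (u v : List ℤ) : cmat (u ++ v) = cmat u * cmat v := by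
  simp [cmat]

theorem cmat_reverse (w : List ℤ) : cmat w.reverse = (cmat w)ᵀ := by
  induction w with
  | nil => simp [cmat]
  | cons a w ih =>
    have h1 : cmat [a] = (!![a, 1; 1, 0] : Matrix (Fin 2) (Fin 2) ℤ)ᵀ := by
      ext i j
      fin_cases i <;> fin_cases j <;> simp [cmat]
    rw [List.reverse_cons, cmat_append, ih, cmat_cons a w, Matrix.transpose_mul, h1]

theorem det_cmat (w : List ℤ) : (cmat w).det = 1 ∨ (cmat w).det = -1 := by
  induction w with
  | nil => left; simp [cmat]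
  | cons a w ih =>
    rw [cmat_cons, Matrix.det_mul]
    have h : (!![a, 1; 1, 0] : Matrix (Fin 2) (Fin 2) ℤ).det = -1 := by
      simp [Matrix.det_fin_two]
    rw [h]
    rcases ih with h1 | h1 <;> rw [h1] <;> simp

theorem entries_cons (a : ℤ) (w : List ℤ) :
    cmat (a :: w) 0 0 = a * cmat w 0 0 + cmat w 1 0 ∧ cmat (a :: w) 1 0 = cmat w 0 0 := by
  rw [cmat_cons]
  constructor <;> simp [Matrix.mul_apply, Fin.sum_univ_two]

theorem growth (w : List ℤ) (hw : Word12 w) :
    1 ≤ cmat w 0 0 ∧ 0 ≤ cmat w 1 0 ∧ (w ≠ [] → 1 ≤ cmat w 1 0) ∧ (w.length : ℤ) ≤ cmat w 0 0 := by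
  induction w with
  | nil => simp [cmat]
  | cons a w ih =>
    have hw' : Word12 w := fun b hb => hw b (List.mem_cons_of_mem _ hb)
    obtain ⟨h1, h2, h3, h4⟩ := ih hw'
    obtain ⟨e1, e2⟩ := entries_cons a w
    have ha : 1 ≤ a := by
      rcases hw a (List.mem_cons_self) with h | h <;> omega
    have hm : cmat w 0 0 ≤ a * cmat w 0 0 := by nlinarith
    refine ⟨by omega, by omega, fun _ => by omega, ?_⟩
    rw [e1]
    rcases w with _ | ⟨b, w⟩
    · simp at h4 h1 ⊢
      omega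
    · have := h3 (by simp)
      simp only [List.length_cons] at h4 ⊢
      push_cast at h4 ⊢
      omega

theorem adm_of_word (w : List ℤ) (hw : Word12 w) (hne : w ≠ [])
    (h1 : w.head? = some 2) (h2 : w.getLast? = some 2) : Admissible (cmat w 0 0) := by
  classical
  have hlen : 1 ≤ w.length := List.length_pos_iff.mpr hne
  set a : ℕ → ℤ := fun i => if i = 0 then 1 else w.getD (i - 1) 1 with ha
  have hmap : (List.map (fun i => (!![a i, 1; 1, 0] : Matrix (Fin 2) (Fin 2) ℤ))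
      (List.range (w.length + 1))).prod = !![1, 1; 1, 0] * cmat w := by
    rw [List.range_succ_eq_map, List.map_cons, List.prod_cons, List.map_map]
    congr 1
    unfold cmat
    congr 1
    apply List.ext_getElem
    · simp
    · intro i hi1 hi2
      simp only [List.length_map, List.length_range] at hi1
      simp [ha, List.getElem?_eq_getElem hi1]
  have hdet := det_cmat w
  rw [Matrix.det_fin_two] at hdet
  refine ⟨cmat w 0 0 + cmat w 1 0, ?_, w.length, a, hlen, ?_, ?_, ?_, ?_, ?_⟩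
  · rcases hdet with h | h
    · exact ⟨-cmat w 0 1, cmat w 1 1 + cmat w 0 1, by linarith⟩
    · exact ⟨cmat w 0 1, -cmat w 1 1 - cmat w 0 1, by linarith⟩
  · intro i hi
    rcases Nat.eq_zero_or_pos i with h0 | h0
    · left; simp [ha, h0]
    · have hi' : i - 1 < w.length := by omega
      have : a i = w[i - 1] := by
        simp [ha, Nat.pos_iff_ne_zero.mp h0, List.getElem?_eq_getElem hi']
      rw [this]
      exact hw _ (List.getElem_mem hi')
  · rcases w with _ | ⟨b, w⟩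
    · exact absurd rfl hne
    · simp at h1
      simp [ha, h1]
  · have h3 : w[w.length - 1]? = some 2 := by
      rw [← List.getLast?_eq_getElem?]; exact h2
    have h4 : w.length ≠ 0 := by omega
    simp [ha, h4, h3]
  · rw [hmap]
    simp [Matrix.mul_apply, Fin.sum_univ_two]
  · rw [hmap]
    simp [Matrix.mul_apply, Fin.sum_univ_two]

/-- The matrix with rows (a, 1) and (1, 0) as a unit over `ZMod q`. -/
def um (q : ℕ) (a : ℤ) : (Matrix (Fin 2) (Fin 2) (ZMod q))ˣ where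
  val := !![(a : ZMod q), 1; 1, 0]
  inv := !![0, 1; 1, -(a : ZMod q)]
  val_inv := by
    ext i j
    fin_cases i <;> fin_cases j <;> simp [Matrix.mul_apply, Fin.sum_univ_two]
  inv_val := by
    ext i j
    fin_cases i <;> fin_cases j <;> simp [Matrix.mul_apply, Fin.sum_univ_two]

/-- The product of the units `um q a` over a word. -/
def up (q : ℕ) (w : List ℤ) : (Matrix (Fin 2) (Fin 2) (ZMod q))ˣ := (w.map (um q)).prod

theorem up_append (q : ℕ) (v w : List ℤ) : up q (v ++ w) = up q v * up q w := by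
  simp [up]

theorem up_val (q : ℕ) (w : List ℤ) :
    ((up q w : (Matrix (Fin 2) (Fin 2) (ZMod q))ˣ) : Matrix (Fin 2) (Fin 2) (ZMod q))
      = (Int.castRingHom (ZMod q)).mapMatrix (cmat w) := by
  induction w with
  | nil => simp [up, cmat]
  | cons a w ih =>
    rw [cmat_cons, map_mul, ← ih]
    have h1 : up q (a :: w) = um q a * up q w := by simp [up]
    rw [h1, Units.val_mul]
    congr 1
    ext i j
    fin_cases i <;> fin_cases j <;> simp [um]

theorem word_append {v w : List ℤ} (hv : Word12 v) (hw : Word12 w) : Word12 (v ++ w) := by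
  intro a ha
  rcases List.mem_append.mp ha with h | h
  · exact hv a h
  · exact hw a h

/-- The subgroup of all units represented by words over `{1,2}`. -/
def H (q : ℕ) [NeZero q] : Subgroup (Matrix (Fin 2) (Fin 2) (ZMod q))ˣ where
  carrier := {g | ∃ w, Word12 w ∧ up q w = g}
  one_mem' := ⟨[], by intro a ha; simp at ha, by simp [up]⟩
  mul_mem' := by
    rintro g h ⟨v, hv, rfl⟩ ⟨w, hw, rfl⟩
    exact ⟨v ++ w, word_append hv hw, up_append q v w⟩
  inv_mem' := by
    rintro g ⟨w, hw, rfl⟩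
    have hpow : ∀ k : ℕ, ∃ v, Word12 v ∧ up q v = (up q w) ^ k := by
      intro k
      induction k with
      | zero => exact ⟨[], by intro a ha; simp at ha, by simp [up]⟩
      | succ k ih =>
        obtain ⟨v, hv, hv'⟩ := ih
        exact ⟨v ++ w, word_append hv hw, by rw [up_append, hv', pow_succ]⟩
    obtain ⟨v, hv, hv'⟩ := hpow (orderOf (up q w) - 1)
    refine ⟨v, hv, ?_⟩
    rw [hv']
    have hpos : 0 < orderOf (up q w) := orderOf_pos _
    rw [eq_comm, inv_eq_iff_mul_eq_one, ← pow_succ']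
    rw [Nat.sub_add_cancel hpos]
    exact pow_orderOf_eq_one _

theorem um_mem (q : ℕ) [NeZero q] (a : ℤ) (ha : a = 1 ∨ a = 2) : um q a ∈ H q :=
  ⟨[a], by intro b hb; rw [List.mem_singleton] at hb; rw [hb]; exact ha, by simp [up]⟩

theorem upow (q : ℕ) (k : ℕ) :
    (((um q 2 * (um q 1)⁻¹) ^ k : (Matrix (Fin 2) (Fin 2) (ZMod q))ˣ) :
      Matrix (Fin 2) (Fin 2) (ZMod q)) = !![1, (k : ZMod q); 0, 1] := by
  induction k with
  | zero =>
    ext i j
    fin_cases i <;> fin_cases j <;> simp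
  | succ k ih =>
    rw [pow_succ, Units.val_mul, ih, Units.val_mul]
    ext i j
    fin_cases i <;> fin_cases j <;>
      simp [um, Units.inv_mk, Matrix.mul_apply, Fin.sum_univ_two]
    all_goals try ring

theorem word_reverse {w : List ℤ} (hw : Word12 w) : Word12 w.reverse :=
  fun a ha => hw a (List.mem_reverse.mp ha)

theorem lt_of_end (v : List ℤ) (hv : Word12 v) (h2 : v = [] ∨ v.getLast? = some 2) :
    cmat v 1 0 < cmat v 0 0 := by
  rcases v with _ | ⟨a, v⟩
  · simp [cmat]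
  · obtain ⟨e1, e2⟩ := entries_cons a v
    have hv' : Word12 v := fun b hb => hv b (List.mem_cons_of_mem _ hb)
    obtain ⟨g1, g2, g3, _⟩ := growth v hv'
    rw [e1, e2]
    rcases v with _ | ⟨b, v⟩
    · rcases h2 with h | h
      · simp at h
      · simp at h
        subst h
        simp [cmat]
    · have := g3 (by simp)
      have ha : 1 ≤ a := by
        rcases hv a (List.mem_cons_self) with h | h <;> omega
      nlinarith

theorem col_inj (w : List ℤ) : ∀ w' : List ℤ, Word12 w → Word12 w' →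
    (w = [] ∨ w.getLast? = some 2) → (w' = [] ∨ w'.getLast? = some 2) →
    cmat w 0 0 = cmat w' 0 0 → cmat w 1 0 = cmat w' 1 0 → w = w' := by
  induction w with
  | nil =>
    intro w' _ hw' _ _ _ h
    rcases w' with _ | ⟨b, w'⟩
    · rfl
    · exfalso
      have := (growth (b :: w') hw').2.2.1 (by simp)
      rw [← h] at this
      simp [cmat] at this
  | cons a v ih =>
    intro w' hw hw' h2 h2' e0 e1
    rcases w' with _ | ⟨b, v'⟩
    · exfalso
      have := (growth (a :: v) hw).2.2.1 (by simp)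
      rw [e1] at this
      simp [cmat] at this
    · have hv : Word12 v := fun b hb => hw b (List.mem_cons_of_mem _ hb)
      have hv' : Word12 v' := fun b hb => hw' b (List.mem_cons_of_mem _ hb)
      have tail : ∀ (a : ℤ) (v : List ℤ), ((a :: v) = [] ∨ (a :: v).getLast? = some 2) →
          (v = [] ∨ v.getLast? = some 2) := by
        intro a v h
        rcases v with _ | ⟨c, v⟩
        · left; rfl
        · right
          rcases h with h | h
          · simp at h
          · simpa using h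
      have t1 := tail a v h2
      have t2 := tail b v' h2'
      rw [(entries_cons a v).1, (entries_cons b v').1] at e0
      rw [(entries_cons a v).2, (entries_cons b v').2] at e1
      have l1 := lt_of_end v hv t1
      have l2 := lt_of_end v' hv' t2
      have p1 := (growth v hv).2.1
      have p2 := (growth v' hv').2.1
      have p3 := (growth v hv).1
      rw [← e1] at e0 l2
      have hab : a = b := by
        rcases lt_trichotomy a b with h | h | h
        · exfalso; nlinarith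
        · exact h
        · exfalso; nlinarith
      subst hab
      have e2 : cmat v 1 0 = cmat v' 1 0 := by linarith
      rw [ih v' hv hv' t1 t2 e1 e2]

/-- The sum of the entries. -/
def nrm (w : List ℤ) : ℤ := cmat w 0 0 + cmat w 0 1 + cmat w 1 0 + cmat w 1 1

theorem ent01 (w : List ℤ) : cmat w 0 1 = cmat w.reverse 1 0 := by
  rw [cmat_reverse]; rfl

theorem ent_le (w : List ℤ) (hw : Word12 w) : cmat w 1 0 ≤ cmat w 0 0 := by
  rcases w with _ | ⟨a, v⟩
  · simp [cmat]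
  · obtain ⟨e1, e2⟩ := entries_cons a v
    have hv' : Word12 v := fun b hb => hw b (List.mem_cons_of_mem _ hb)
    obtain ⟨g1, g2, g3, _⟩ := growth v hv'
    have ha : 1 ≤ a := by
      rcases hw a (List.mem_cons_self) with h | h <;> omega
    rw [e1, e2]
    nlinarith

theorem ent01_bd (w : List ℤ) (hw : Word12 w) : 0 ≤ cmat w 0 1 ∧ cmat w 0 1 ≤ cmat w 0 0 := by
  have e0 : cmat w 0 0 = cmat w.reverse 0 0 := by rw [cmat_reverse]; rfl
  rw [ent01, e0]
  exact ⟨(growth _ (word_reverse hw)).2.1, ent_le _ (word_reverse hw)⟩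

theorem ent11_bd (w : List ℤ) (hw : Word12 w) : 0 ≤ cmat w 1 1 ∧ cmat w 1 1 ≤ cmat w 0 0 := by
  rcases w with _ | ⟨a, v⟩
  · simp [cmat]
  · have hv' : Word12 v := fun b hb => hw b (List.mem_cons_of_mem _ hb)
    have e : cmat (a :: v) 1 1 = cmat v 0 1 := by
      rw [cmat_cons]; simp [Matrix.mul_apply, Fin.sum_univ_two]
    obtain ⟨h1, h2⟩ := ent01_bd v hv'
    have h3 := ent_le (a :: v) hw
    rw [(entries_cons a v).2] at h3
    rw [e]
    exact ⟨h1, h2.trans h3⟩

theorem nrm_bd (w : List ℤ) (hw : Word12 w) : cmat w 0 0 ≤ nrm w ∧ nrm w ≤ 4 * cmat w 0 0 := by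
  have h1 := ent01_bd w hw
  have h2 := ent11_bd w hw
  have h3 := ent_le w hw
  have h4 := (growth w hw).2.1
  unfold nrm
  constructor <;> linarith

theorem nrm_pos (w : List ℤ) (hw : Word12 w) : 1 ≤ nrm w :=
  (growth w hw).1.trans (nrm_bd w hw).1

theorem nrm_append (v w : List ℤ) (hv : Word12 v) (hw : Word12 w) :
    nrm (v ++ w) ≤ nrm v * nrm w := by
  have a1 := ent01_bd v hv
  have a2 := ent11_bd v hv
  have a3 := (growth v hv).2.1
  have a4 := (growth v hv).1
  have b1 := ent01_bd w hw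
  have b2 := ent11_bd w hw
  have b3 := (growth w hw).2.1
  have b4 := (growth w hw).1
  unfold nrm
  rw [cmat_append]
  simp only [Matrix.mul_apply, Fin.sum_univ_two]
  have m1 := mul_nonneg (show 0 ≤ cmat v 0 0 by linarith) b3
  have m2 := mul_nonneg (show 0 ≤ cmat v 0 0 by linarith) b2.1
  have m3 := mul_nonneg a1.1 (show 0 ≤ cmat w 0 0 by linarith)
  have m4 := mul_nonneg a1.1 b1.1
  have m5 := mul_nonneg a3 b3
  have m6 := mul_nonneg a3 b2.1
  have m7 := mul_nonneg a2.1 (show 0 ≤ cmat w 0 0 by linarith)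
  have m8 := mul_nonneg a2.1 b1.1
  nlinarith

theorem nrm_reverse (w : List ℤ) : nrm w.reverse = nrm w := by
  unfold nrm
  rw [cmat_reverse]
  simp only [Matrix.transpose_apply]
  ring

/-- A divisor bound. -/
theorem divisor_bound (t : ℕ) (ht : 1 ≤ t) :
    ∃ C : ℕ, 0 < C ∧ ∀ k : ℕ, k ≠ 0 → k.divisors.card ^ t ≤ C * k := by
  obtain ⟨D, hD1, hD⟩ : ∃ D : ℕ, 1 ≤ D ∧ ∀ a : ℕ, (a + 1) ^ t ≤ D * 2 ^ a := by
    refine ⟨t ^ t * 2 ^ (t + 1), Nat.one_le_iff_ne_zero.mpr (by positivity), fun a => ?_⟩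
    have h1 : a + 1 ≤ t * 2 ^ ((a + 1) / t + 1) := by
      have h2 : a + 1 < t * ((a + 1) / t + 1) := Nat.lt_mul_div_succ (a + 1) (by omega)
      have h3 : (a + 1) / t + 1 < 2 ^ ((a + 1) / t + 1) := Nat.lt_two_pow_self
      exact h2.le.trans (Nat.mul_le_mul_left t h3.le)
    have h4 : ((a + 1) / t + 1) * t ≤ a + 1 + t := by
      have := Nat.div_mul_le_self (a + 1) t
      rw [add_mul, one_mul]; omega
    calc (a + 1) ^ t ≤ (t * 2 ^ ((a + 1) / t + 1)) ^ t := Nat.pow_le_pow_left h1 t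
      _ = t ^ t * 2 ^ (((a + 1) / t + 1) * t) := by rw [mul_pow, ← pow_mul]
      _ ≤ t ^ t * 2 ^ (a + 1 + t) := Nat.mul_le_mul_left _ (Nat.pow_le_pow_right (by norm_num) h4)
      _ = t ^ t * 2 ^ (t + 1) * 2 ^ a := by
        rw [pow_add 2 (a + 1) t, pow_add 2 a 1, pow_add 2 t 1]; ring
  refine ⟨D ^ (2 ^ t), by positivity, fun k hk => ?_⟩
  rw [Nat.card_divisors hk, ← Finset.prod_pow]
  have h1 : ∀ p ∈ k.primeFactors, (k.factorization p + 1) ^ t
      ≤ (if p < 2 ^ t then D else 1) * p ^ (k.factorization p) := by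
    intro p hp
    have hp2 : 2 ≤ p := (Nat.prime_of_mem_primeFactors hp).two_le
    split_ifs with h
    · exact (hD _).trans (Nat.mul_le_mul_left _ (Nat.pow_le_pow_left hp2 _))
    · push Not at h
      rw [one_mul]
      calc (k.factorization p + 1) ^ t ≤ (2 ^ (k.factorization p)) ^ t :=
            Nat.pow_le_pow_left Nat.lt_two_pow_self t
        _ = (2 ^ t) ^ (k.factorization p) := by rw [← pow_mul, ← pow_mul, mul_comm]
        _ ≤ p ^ _ := Nat.pow_le_pow_left h _
  refine (Finset.prod_le_prod' h1).trans ?_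
  rw [Finset.prod_mul_distrib]
  have h2 : ∏ p ∈ k.primeFactors, p ^ k.factorization p = k := Nat.prod_factorization_pow_eq_self hk
  rw [h2]
  refine Nat.mul_le_mul_right k ?_
  rw [Finset.prod_ite, Finset.prod_const, Finset.prod_const_one, mul_one]
  refine Nat.pow_le_pow_right (by omega) ?_
  calc (k.primeFactors.filter (fun p => p < 2 ^ t)).card ≤ (Finset.range (2 ^ t)).card := by
        apply Finset.card_le_card
        intro p hp
        rw [Finset.mem_filter] at hp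
        exact Finset.mem_range.mpr hp.2
    _ = 2 ^ t := Finset.card_range _

theorem pow_bound (y y0 b : ℝ) (hy : 0 < y) (hy0 : 0 < y0) (hb : 0 < b) (h : y0 ^ 2 ≤ b ^ 33) :
    y ^ (2 / 33 : ℝ) ≤ b * (1 + 2 / 33 * (y / y0 - 1)) := by
  have h1 : y0 ^ (2 / 33 : ℝ) ≤ b := by
    have h2 : (y0 ^ 2) ^ (1 / 33 : ℝ) ≤ (b ^ 33) ^ (1 / 33 : ℝ) :=
      Real.rpow_le_rpow (by positivity) h (by norm_num)
    rw [← Real.rpow_natCast y0 2, ← Real.rpow_natCast b 33, ← Real.rpow_mul hy0.le,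
      ← Real.rpow_mul hb.le] at h2
    norm_num at h2
    exact h2
  have h3 : y = y0 * (1 + (y / y0 - 1)) := by field_simp; ring
  have hpos : 0 < y / y0 := div_pos hy hy0
  have h4 : (1 + (y / y0 - 1)) ^ (2 / 33 : ℝ) ≤ 1 + 2 / 33 * (y / y0 - 1) :=
    rpow_one_add_le_one_add_mul_self (by linarith) (by norm_num) (by norm_num)
  calc y ^ (2 / 33 : ℝ) = y0 ^ (2 / 33 : ℝ) * (1 + (y / y0 - 1)) ^ (2 / 33 : ℝ) := by
        rw [← Real.mul_rpow hy0.le (by linarith), ← h3]
    _ ≤ b * (1 + 2 / 33 * (y / y0 - 1)) :=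
        mul_le_mul h1 h4 (Real.rpow_nonneg (by linarith) _) hb.le

theorem poly_ineq (x : ℝ) (h1 : 9 / 25 ≤ x) (h2 : x ≤ 37 / 50) :
    1 / (171 / 100 + x) ≤
      1 / ((271 / 100 + 171 / 100 * x) * (1242667 / 1237500 + 12811 / 309375 * x))
      + 1 / ((442 / 100 + 171 / 100 * x) * (5743631 / 5500000 + 35237 / 1375000 * x)) := by
  have e : (171 / 100 + x) * ((271 / 100 + 171 / 100 * x) * (1242667 / 1237500 + 12811 / 309375 * x)
      + (442 / 100 + 171 / 100 * x) * (5743631 / 5500000 + 35237 / 1375000 * x))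
      - (271 / 100 + 171 / 100 * x) * (1242667 / 1237500 + 12811 / 309375 * x)
        * ((442 / 100 + 171 / 100 * x) * (5743631 / 5500000 + 35237 / 1375000 * x))
      = 233732883151905341969/277186658203125000000 * (37/50 - x)^4 + 5043252500642883732761/1108746632812500000000 * (x - 9/25) * (37/50 - x)^3 + 17410969268073555630497/2217493265625000000000 * (x - 9/25)^2 * (37/50 - x)^2 + 2858057253417537857483/554373316406250000000 * (x - 9/25)^3 * (37/50 - x) + 67606688756068226009/67196765625000000000 * (x - 9/25)^4 := by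
    ring
  have p1 : 0 ≤ x - 9 / 25 := by linarith
  have p2 : 0 ≤ 37 / 50 - x := by linarith
  have hx : 0 < x := by linarith
  have e2 : 0 ≤ (171 / 100 + x) * ((271 / 100 + 171 / 100 * x) * (1242667 / 1237500 + 12811 / 309375 * x)
      + (442 / 100 + 171 / 100 * x) * (5743631 / 5500000 + 35237 / 1375000 * x))
      - (271 / 100 + 171 / 100 * x) * (1242667 / 1237500 + 12811 / 309375 * x)
        * ((442 / 100 + 171 / 100 * x) * (5743631 / 5500000 + 35237 / 1375000 * x)) := by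
    rw [e]; positivity
  have d1 : 0 < (271 / 100 + 171 / 100 * x) * (1242667 / 1237500 + 12811 / 309375 * x) := by
    positivity
  have d2 : 0 < (442 / 100 + 171 / 100 * x) * (5743631 / 5500000 + 35237 / 1375000 * x) := by
    positivity
  rw [div_add_div _ _ d1.ne' d2.ne', div_le_div_iff₀ (by positivity) (by positivity)]
  linarith

theorem step_bound (a x X b y0 : ℝ) (ha : 1 ≤ a) (hx : 0 < x) (hX : 0 < X) (hb : 0 < b)
    (hy0 : 0 < y0) (h : y0 ^ 2 ≤ b ^ 33) :
    X ^ (35 / 33 : ℝ) * (1 / ((1 + 171 / 100 * (a + x)) * (b * (1 + 2 / 33 * ((a + x) / y0 - 1)))))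
      ≤ (X / (a + x)) ^ (35 / 33 : ℝ) / (171 / 100 + 1 / (a + x)) := by
  have hy : 0 < a + x := by linarith
  have h1 : (a + x) ^ (35 / 33 : ℝ) ≤ (a + x) * (b * (1 + 2 / 33 * ((a + x) / y0 - 1))) := by
    have : (35 / 33 : ℝ) = 1 + 2 / 33 := by norm_num
    rw [this, Real.rpow_add hy, Real.rpow_one]
    exact mul_le_mul_of_nonneg_left (pow_bound _ _ _ hy hy0 hb h) hy.le
  rw [Real.div_rpow hX.le hy.le, div_div, ← mul_one_div (X ^ (35 / 33 : ℝ)) _]
  refine mul_le_mul_of_nonneg_left ?_ (Real.rpow_nonneg hX.le _)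
  have h2 : (171 / 100 + 1 / (a + x)) = (1 + 171 / 100 * (a + x)) / (a + x) := by
    field_simp; ring
  have hpw : 0 < (a + x) ^ (35 / 33 : ℝ) := Real.rpow_pos_of_pos hy _
  rw [h2]
  apply one_div_le_one_div_of_le
  · positivity
  · calc (a + x) ^ (35 / 33 : ℝ) * ((1 + 171 / 100 * (a + x)) / (a + x))
        ≤ ((a + x) * (b * (1 + 2 / 33 * ((a + x) / y0 - 1)))) * ((1 + 171 / 100 * (a + x)) / (a + x)) :=
          mul_le_mul_of_nonneg_right h1 (by positivity)
      _ = (1 + 171 / 100 * (a + x)) * (b * (1 + 2 / 33 * ((a + x) / y0 - 1))) := by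
          field_simp

theorem count_aux (n : ℕ) : ∀ x X : ℝ, 9 / 25 ≤ x → x ≤ 37 / 50 → 1 ≤ X → X ≤ 3 * (4 / 3) ^ n →
    ∃ F : Finset (List ℤ), (∀ w ∈ F, Word12 w ∧ (cmat w 0 0 : ℝ) + x * cmat w 1 0 ≤ X) ∧
      1 / 9 * (X ^ (35 / 33 : ℝ) / (171 / 100 + x)) ≤ F.card := by
  have base : ∀ x X : ℝ, 9 / 25 ≤ x → x ≤ 37 / 50 → 1 ≤ X → X ≤ 3 →
      ∃ F : Finset (List ℤ), (∀ w ∈ F, Word12 w ∧ (cmat w 0 0 : ℝ) + x * cmat w 1 0 ≤ X) ∧
      1 / 9 * (X ^ (35 / 33 : ℝ) / (171 / 100 + x)) ≤ F.card := by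
    intro x X h1 h2 h3 h4
    refine ⟨{[]}, ?_, ?_⟩
    · intro w hw
      rw [Finset.mem_singleton] at hw
      subst hw
      refine ⟨by intro a ha; simp at ha, ?_⟩
      simp [cmat]; linarith
    · have h5 : X ^ (35 / 33 : ℝ) ≤ X ^ (2 : ℝ) :=
        Real.rpow_le_rpow_of_exponent_le h3 (by norm_num)
      have h6 : X ^ (2 : ℝ) ≤ 9 := by
        rw [Real.rpow_two]; nlinarith
      have h7 : X ^ (35 / 33 : ℝ) / (171 / 100 + x) ≤ 9 := by
        rw [div_le_iff₀ (by linarith)]; linarith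
      simp only [Finset.card_singleton]
      push_cast
      linarith
  induction n with
  | zero =>
    intro x X h1 h2 h3 h4
    exact base x X h1 h2 h3 (by simpa using h4)
  | succ n ih =>
    intro x X h1 h2 h3 h4
    rcases le_or_gt X 3 with h | h
    · exact base x X h1 h2 h3 h
    have hx0 : 0 < x := by linarith
    have y1 : 0 < 1 + x := by linarith
    have y2 : 0 < 2 + x := by linarith
    have q1 : 1 ≤ X / (1 + x) := by rw [le_div_iff₀ y1]; linarith
    have q2 : 1 ≤ X / (2 + x) := by rw [le_div_iff₀ y2]; linarith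
    have hpn : X ≤ 3 * (4 / 3) ^ n * (4 / 3) := by rw [pow_succ] at h4; linarith
    have hpos : (0 : ℝ) < 3 * (4 / 3) ^ n := by positivity
    have r1 : X / (1 + x) ≤ 3 * (4 / 3) ^ n := by
      rw [div_le_iff₀ y1]; nlinarith
    have r2 : X / (2 + x) ≤ 3 * (4 / 3) ^ n := by
      rw [div_le_iff₀ y2]; nlinarith
    obtain ⟨F1, hF1, hc1⟩ := ih (1 / (1 + x)) (X / (1 + x))
      (by rw [le_div_iff₀ y1]; linarith) (by rw [div_le_iff₀ y1]; linarith) q1 r1
    obtain ⟨F2, hF2, hc2⟩ := ih (1 / (2 + x)) (X / (2 + x))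
      (by rw [le_div_iff₀ y2]; linarith) (by rw [div_le_iff₀ y2]; linarith) q2 r2
    refine ⟨F1.map ⟨List.cons 1, List.cons_injective⟩ ∪ F2.map ⟨List.cons 2, List.cons_injective⟩,
      ?_, ?_⟩
    · intro w hw
      rw [Finset.mem_union, Finset.mem_map, Finset.mem_map] at hw
      rcases hw with ⟨v, hv, rfl⟩ | ⟨v, hv, rfl⟩
      · obtain ⟨hv1, hv2⟩ := hF1 v hv
        refine ⟨?_, ?_⟩
        · intro a ha
          simp only [Function.Embedding.coeFn_mk, List.mem_cons] at ha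
          rcases ha with ha | ha
          · left; exact ha
          · exact hv1 a ha
        · simp only [Function.Embedding.coeFn_mk]
          rw [(entries_cons 1 v).1, (entries_cons 1 v).2]
          push_cast
          rw [le_div_iff₀ y1] at hv2
          have e : ((cmat v 0 0 : ℝ) + 1 / (1 + x) * cmat v 1 0) * (1 + x)
              = 1 * (cmat v 0 0 : ℝ) + cmat v 1 0 + x * cmat v 0 0 := by
            field_simp
            ring
          rw [e] at hv2; exact hv2
      · obtain ⟨hv1, hv2⟩ := hF2 v hv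
        refine ⟨?_, ?_⟩
        · intro a ha
          simp only [Function.Embedding.coeFn_mk, List.mem_cons] at ha
          rcases ha with ha | ha
          · right; exact ha
          · exact hv1 a ha
        · simp only [Function.Embedding.coeFn_mk]
          rw [(entries_cons 2 v).1, (entries_cons 2 v).2]
          push_cast
          rw [le_div_iff₀ y2] at hv2
          have e : ((cmat v 0 0 : ℝ) + 1 / (2 + x) * cmat v 1 0) * (2 + x)
              = 2 * (cmat v 0 0 : ℝ) + cmat v 1 0 + x * cmat v 0 0 := by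
            field_simp
            ring
          rw [e] at hv2; exact hv2
    · rw [Finset.card_union_of_disjoint, Finset.card_map, Finset.card_map]
      · push_cast
        have s1 := step_bound 1 x X (12811 / 12500) (3 / 2) (by norm_num) hx0 (by linarith)
          (by norm_num) (by norm_num) (by norm_num)
        have s2 := step_bound 2 x X (105711 / 100000) (5 / 2) (by norm_num) hx0 (by linarith)
          (by norm_num) (by norm_num) (by norm_num)
        have hP := poly_ineq x h1 h2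
        have hXp : 0 ≤ X ^ (35 / 33 : ℝ) := Real.rpow_nonneg (by linarith) _
        have e1 : (1 + 171 / 100 * (1 + x)) * (12811 / 12500 * (1 + 2 / 33 * ((1 + x) / (3 / 2) - 1)))
            = (271 / 100 + 171 / 100 * x) * (1242667 / 1237500 + 12811 / 309375 * x) := by ring
        have e2 : (1 + 171 / 100 * (2 + x)) * (105711 / 100000 * (1 + 2 / 33 * ((2 + x) / (5 / 2) - 1)))
            = (442 / 100 + 171 / 100 * x) * (5743631 / 5500000 + 35237 / 1375000 * x) := by ring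
        rw [e1] at s1
        rw [e2] at s2
        have h5 : X ^ (35 / 33 : ℝ) / (171 / 100 + x) ≤
            (X / (1 + x)) ^ (35 / 33 : ℝ) / (171 / 100 + 1 / (1 + x))
            + (X / (2 + x)) ^ (35 / 33 : ℝ) / (171 / 100 + 1 / (2 + x)) := by
          rw [← mul_one_div (X ^ (35 / 33 : ℝ)) _]
          refine (mul_le_mul_of_nonneg_left hP hXp).trans ?_
          rw [mul_add]
          exact add_le_add s1 s2
        linarith
      · rw [Finset.disjoint_left]
        intro w hw1 hw2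
        rw [Finset.mem_map] at hw1 hw2
        obtain ⟨v1, _, hv1⟩ := hw1
        obtain ⟨v2, _, hv2⟩ := hw2
        simp only [Function.Embedding.coeFn_mk] at hv1 hv2
        rw [← hv2] at hv1
        have := (List.cons_eq_cons.mp hv1).1
        norm_num at this

theorem asym (A C : ℝ) (hC : 0 < C) : ∃ N₀ : ℕ, ∀ N : ℕ, N₀ ≤ N →
    A * (N : ℝ) ^ (0.53 : ℝ) * (C * (N : ℝ) ^ 2) ^ (1 / 10000 : ℝ) < (N : ℝ) ^ (35 / 66 : ℝ) := by
  have h1 : Filter.Tendsto (fun N : ℕ => (N : ℝ) ^ (35 / 66 - 5302 / 10000 : ℝ))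
      Filter.atTop Filter.atTop :=
    (tendsto_rpow_atTop (by norm_num)).comp tendsto_natCast_atTop_atTop
  obtain ⟨N₀, hN₀⟩ := Filter.eventually_atTop.mp
    (h1.eventually_gt_atTop (A * C ^ (1 / 10000 : ℝ)))
  refine ⟨max N₀ 1, fun N hN => ?_⟩
  have hN1 : 1 ≤ N := (le_max_right _ _).trans hN
  have hNpos : (0 : ℝ) < N := by exact_mod_cast hN1
  have h2 := hN₀ N ((le_max_left _ _).trans hN)
  have h3 : (C * (N : ℝ) ^ 2) ^ (1 / 10000 : ℝ)
      = C ^ (1 / 10000 : ℝ) * (N : ℝ) ^ (2 / 10000 : ℝ) := by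
    rw [Real.mul_rpow hC.le (by positivity), ← Real.rpow_natCast, ← Real.rpow_mul hNpos.le]
    norm_num
  have h4 : (N : ℝ) ^ (35 / 66 : ℝ) = (N : ℝ) ^ (35 / 66 - 5302 / 10000 : ℝ)
      * ((N : ℝ) ^ (0.53 : ℝ) * (N : ℝ) ^ (2 / 10000 : ℝ)) := by
    rw [← Real.rpow_add hNpos, ← Real.rpow_add hNpos]
    norm_num
  rw [h3, h4]
  have h5 : (0 : ℝ) < (N : ℝ) ^ (0.53 : ℝ) * (N : ℝ) ^ (2 / 10000 : ℝ) := by positivity
  calc A * (N : ℝ) ^ (0.53 : ℝ) * (C ^ (1 / 10000 : ℝ) * (N : ℝ) ^ (2 / 10000 : ℝ))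
      = (A * C ^ (1 / 10000 : ℝ)) * ((N : ℝ) ^ (0.53 : ℝ) * (N : ℝ) ^ (2 / 10000 : ℝ)) := by ring
    _ < _ := mul_lt_mul_of_pos_right h2 h5

theorem words_count (Y : ℝ) (hY : 1 ≤ Y) : ∃ F : Finset (List ℤ),
    (∀ w ∈ F, Word12 w ∧ (cmat w 0 0 : ℝ) ≤ Y) ∧ 1 / 20 * Y ^ (35 / 33 : ℝ) ≤ F.card := by
  obtain ⟨n, hn⟩ := pow_unbounded_of_one_lt Y (show (1 : ℝ) < 4 / 3 by norm_num)
  obtain ⟨F, hF, hc⟩ := count_aux n (1 / 2) Y (by norm_num) (by norm_num) hY
    (by have : (0 : ℝ) < (4 / 3) ^ n := by positivity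
        linarith)
  refine ⟨F, fun w hw => ?_, ?_⟩
  · obtain ⟨h1, h2⟩ := hF w hw
    refine ⟨h1, ?_⟩
    have h3 := (growth w h1).2.1
    have h4 : (0 : ℝ) ≤ (cmat w 1 0 : ℝ) := by exact_mod_cast h3
    linarith
  · refine le_trans ?_ hc
    have h5 : (0 : ℝ) ≤ Y ^ (35 / 33 : ℝ) := Real.rpow_nonneg (by linarith) _
    have h6 : 1 / 9 * (Y ^ (35 / 33 : ℝ) / (171 / 100 + 1 / 2))
        = 100 / 1989 * Y ^ (35 / 33 : ℝ) := by ring
    rw [h6]
    nlinarith


/-- The matrix with rows (-1, 2) and (4 - k, 2k - 7) is represented. -/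
theorem tk_mem (q : ℕ) [NeZero q] (k : ℕ) :
    ∃ g ∈ H q, ((g : (Matrix (Fin 2) (Fin 2) (ZMod q))ˣ) : Matrix (Fin 2) (Fin 2) (ZMod q))
      = !![-1, 2; 4 - (k : ZMod q), 2 * (k : ZMod q) - 7] := by
  have h1 := um_mem q 1 (Or.inl rfl)
  have h2 := um_mem q 2 (Or.inr rfl)
  refine ⟨(um q 2)⁻¹ * (um q 2 * (um q 1)⁻¹) ^ k * (um q 1 * (um q 2)⁻¹ * (um q 1)⁻¹ * (um q 1)⁻¹),
    (H q).mul_mem ((H q).mul_mem ((H q).inv_mem h2) ((H q).pow_mem ((H q).mul_mem h2 ((H q).inv_mem h1)) k))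
      ((H q).mul_mem ((H q).mul_mem ((H q).mul_mem h1 ((H q).inv_mem h2)) ((H q).inv_mem h1))
        ((H q).inv_mem h1)), ?_⟩
  rw [Units.val_mul, Units.val_mul, upow]
  simp only [Units.val_mul]
  ext i j
  fin_cases i <;> fin_cases j <;>
    simp [um, Units.inv_mk, Matrix.mul_apply, Fin.sum_univ_two]
  all_goals try ring

/-- The middle one of the three integers. -/
def KK (v : List ℤ) : ℤ := cmat ([2] ++ v ++ [1, 1, 2, 1, 1] ++ v.reverse ++ [2]) 0 0

def AA (v : List ℤ) : ℤ := cmat ([2] ++ v ++ [2]) 0 0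

def BB (v : List ℤ) : ℤ := cmat ([2] ++ v ++ [1, 2]) 0 0

/-- The three continuants. -/
theorem triple (v : List ℤ) :
    KK v = 2 * (AA v * BB v) ∧
    cmat ([2] ++ v.reverse ++ [1, 1, 1, 2] ++ v ++ [1, 2]) 0 0 = KK v - (cmat v).det ∧
    cmat ([2] ++ v.reverse ++ [2, 1, 1, 1] ++ v ++ [1, 2]) 0 0 = KK v + (cmat v).det ∧
    AA v = 2 * (2 * cmat v 0 0 + cmat v 1 0) + (2 * cmat v 0 1 + cmat v 1 1) ∧
    BB v = 3 * (2 * cmat v 0 0 + cmat v 1 0) + 2 * (2 * cmat v 0 1 + cmat v 1 1) := by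
  have e1 : cmat [2] = !![2, 1; 1, 0] := by simp [cmat]
  have e2 : cmat [1, 2] = !![3, 1; 2, 1] := by
    ext i j
    fin_cases i <;> fin_cases j <;> simp [cmat]
  have e3 : cmat [1, 1, 2, 1, 1] = !![12, 7; 7, 4] := by
    ext i j
    fin_cases i <;> fin_cases j <;> simp [cmat]
  have e4 : cmat [1, 1, 1, 2] = !![8, 3; 5, 2] := by
    ext i j
    fin_cases i <;> fin_cases j <;> simp [cmat]
  have e5 : cmat [2, 1, 1, 1] = !![8, 5; 3, 2] := by
    ext i j
    fin_cases i <;> fin_cases j <;> simp [cmat]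
  unfold KK AA BB
  simp only [cmat_append, cmat_reverse, e1, e2, e3, e4, e5, Matrix.det_fin_two, Matrix.mul_apply, Fin.sum_univ_two,
    Matrix.of_apply, Matrix.cons_val_zero, Matrix.cons_val_one, Matrix.cons_val', Matrix.cons_val_fin_one,
    Matrix.transpose_apply]
  refine ⟨?_, ?_, ?_, ?_, ?_⟩ <;> ring

theorem KK_eq (v : List ℤ) : KK v = 2 * (AA v * BB v) := (triple v).1

theorem adm3 (v : List ℤ) (hv : Word12 v) : Admissible (KK v - 1) ∧ Admissible (KK v) ∧ Admissible (KK v + 1) := by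
  obtain ⟨-, t2, t3, -, -⟩ := triple v
  have wd : ∀ l : List ℤ, (∀ a ∈ l, a = 1 ∨ a = 2) → Word12 l := fun l h => h
  have hr := word_reverse hv
  have hA : ∀ s t X Y : List ℤ, Word12 s → Word12 t → Word12 X → Word12 Y →
      Admissible (cmat ([2] ++ s ++ X ++ t ++ (Y ++ [2])) 0 0) := by
    intro s t X Y hs ht hX hY
    refine adm_of_word _ ?_ (by simp) (by simp) (by rw [← List.append_assoc]; exact List.getLast?_concat)
    exact word_append (word_append (word_append (word_append (wd [2] (by simp)) hs) hX) ht)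
      (word_append hY (wd [2] (by simp)))
  have hA2 : Admissible (KK v) :=
    hA v v.reverse [1, 1, 2, 1, 1] [] hv hr (wd _ (by simp)) (wd _ (by simp))
  have hA1 : Admissible (cmat ([2] ++ v.reverse ++ [1, 1, 1, 2] ++ v ++ [1, 2]) 0 0) :=
    hA v.reverse v [1, 1, 1, 2] [1] hr hv (wd _ (by simp)) (wd _ (by simp))
  have hA3 : Admissible (cmat ([2] ++ v.reverse ++ [2, 1, 1, 1] ++ v ++ [1, 2]) 0 0) :=
    hA v.reverse v [2, 1, 1, 1] [1] hr hv (wd _ (by simp)) (wd _ (by simp))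
  rw [t2] at hA1
  rw [t3] at hA3
  rcases det_cmat v with hd | hd
  · rw [hd] at hA1 hA3
    exact ⟨hA1, hA2, hA3⟩
  · rw [hd] at hA1 hA3
    rw [sub_neg_eq_add] at hA1
    rw [← sub_eq_add_neg] at hA3
    exact ⟨hA3, hA2, hA1⟩

theorem cong (m : ℕ) [NeZero m] (c : ℤ) : ∃ g ∈ H m, ∀ v : List ℤ, up m v = g → KK v ≡ 2 * c [ZMOD m] := by
  obtain ⟨g, hg, hgm⟩ := tk_mem m ((c : ℤ) : ZMod m).val
  refine ⟨g, hg, fun v hvg => ?_⟩
  have hval := up_val m v
  rw [hvg, hgm] at hval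
  have hent : ∀ i j, ((cmat v i j : ℤ) : ZMod m) = (!![-1, 2; 4 - ((((c : ℤ) : ZMod m).val : ℕ) : ZMod m),
      2 * ((((c : ℤ) : ZMod m).val : ℕ) : ZMod m) - 7] : Matrix (Fin 2) (Fin 2) (ZMod m)) i j := by
    intro i j
    rw [hval]
    simp
  have h00 := hent 0 0
  have h01 := hent 0 1
  have h10 := hent 1 0
  have h11 := hent 1 1
  simp only [Matrix.of_apply, Matrix.cons_val_zero, Matrix.cons_val_one, Matrix.cons_val',
    Matrix.cons_val_fin_one, ZMod.natCast_val, ZMod.cast_id', id_eq] at h00 h01 h10 h11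
  obtain ⟨-, -, -, s1, s2⟩ := triple v
  rw [← ZMod.intCast_eq_intCast_iff, KK_eq, s1, s2]
  push_cast
  rw [h00, h01, h10, h11]
  ring

theorem AB_inj {v v' : List ℤ} (hv : Word12 v) (hv' : Word12 v') (hA : AA v = AA v') (hB : BB v = BB v') : v = v' := by
  obtain ⟨-, -, -, a1, b1⟩ := triple v
  obtain ⟨-, -, -, a2, b2⟩ := triple v'
  have ht : ∀ v : List ℤ, cmat ([2] ++ v).reverse 0 0 = 2 * cmat v 0 0 + cmat v 1 0 ∧
      cmat ([2] ++ v).reverse 1 0 = 2 * cmat v 0 1 + cmat v 1 1 := by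
    intro v
    have e1 : cmat [2] = !![2, 1; 1, 0] := by simp [cmat]
    rw [cmat_reverse, cmat_append, e1]
    constructor <;> simp only [Matrix.transpose_apply, Matrix.mul_apply, Fin.sum_univ_two, Matrix.of_apply,
      Matrix.cons_val_zero, Matrix.cons_val_one, Matrix.cons_val', Matrix.cons_val_fin_one, one_mul]
  have w2 : Word12 [2] := by
    intro a ha
    right
    exact List.mem_singleton.mp ha
  have hl : ∀ v : List ℤ, ([2] ++ v).reverse = [] ∨ ([2] ++ v).reverse.getLast? = some 2 := by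
    intro v
    right
    simp
  have k0 : cmat ([2] ++ v).reverse 0 0 = cmat ([2] ++ v').reverse 0 0 := by
    rw [(ht v).1, (ht v').1]
    linarith
  have k1 : cmat ([2] ++ v).reverse 1 0 = cmat ([2] ++ v').reverse 1 0 := by
    rw [(ht v).2, (ht v').2]
    linarith
  have h := col_inj _ _ (word_reverse (word_append w2 hv)) (word_reverse (word_append w2 hv')) (hl v) (hl v') k0 k1
  exact List.append_cancel_left (List.reverse_injective h)

theorem KK_size {v : List ℤ} (hv : Word12 v) : 1 ≤ KK v ∧ KK v ≤ 480 * nrm v ^ 2 := by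
  have w2 : Word12 [2] := by
    intro a ha
    right
    exact List.mem_singleton.mp ha
  have w5 : Word12 [1, 1, 2, 1, 1] := by
    intro a ha
    simp only [List.mem_cons, List.not_mem_nil, or_false] at ha
    omega
  have e2 : nrm [2] = 4 := by simp [nrm, cmat]
  have e5 : nrm [1, 1, 2, 1, 1] = 30 := by simp [nrm, cmat]
  have hp := word_reverse hv
  have hp0 := nrm_pos _ hv
  have n1 := nrm_append [2] v w2 hv
  have n2 := nrm_append ([2] ++ v) _ (word_append w2 hv) w5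
  have n3 := nrm_append ([2] ++ v ++ [1, 1, 2, 1, 1]) _ (word_append (word_append w2 hv) w5) hp
  have hW := word_append (word_append (word_append w2 hv) w5) hp
  have n4 := nrm_append ([2] ++ v ++ [1, 1, 2, 1, 1] ++ v.reverse) _ hW w2
  have hW' := word_append hW w2
  rw [e2] at n1 n4
  rw [e5] at n2
  rw [nrm_reverse] at n3
  refine ⟨(growth _ hW').1, ?_⟩
  calc KK v ≤ nrm ([2] ++ v ++ [1, 1, 2, 1, 1] ++ v.reverse ++ [2]) := (nrm_bd _ hW').1
    _ ≤ nrm ([2] ++ v ++ [1, 1, 2, 1, 1] ++ v.reverse) * 4 := n4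
    _ ≤ (nrm ([2] ++ v ++ [1, 1, 2, 1, 1]) * nrm v) * 4 := by linarith
    _ ≤ ((nrm ([2] ++ v) * 30) * nrm v) * 4 := by
        have := mul_le_mul_of_nonneg_right n2 (show 0 ≤ nrm v by omega)
        linarith
    _ ≤ (((4 * nrm v) * 30) * nrm v) * 4 := by
        have h1 : nrm ([2] ++ v) * 30 ≤ (4 * nrm v) * 30 := by linarith
        have := mul_le_mul_of_nonneg_right h1 (show 0 ≤ nrm v by omega)
        linarith
    _ = 480 * nrm v ^ 2 := by ring


/-- For every modulus `m ≥ 1` and every `c`, for all large `N` there are at least `N ^ 0.53` integers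
`n` with `0 < n ≤ N` and `n` congruent to `2 c` modulo `m` such that `n - 1`, `n` and `n + 1` are all
admissible. -/
theorem triples (m : ℕ) (hm : 0 < m) (c : ℤ) : ∃ N₀ : ℕ, ∀ N : ℕ, N₀ ≤ N → (N : ℝ) ^ (0.53 : ℝ) ≤
    ({n : ℤ | 0 < n ∧ n ≤ N ∧ n ≡ 2 * c [ZMOD m] ∧ Admissible (n - 1) ∧ Admissible n ∧
      Admissible (n + 1)}.ncard : ℝ) := by
  classical
  have : NeZero m := ⟨by omega⟩
  obtain ⟨g, hg, hcong⟩ := cong m c
  have hf : ∀ γ : (Matrix (Fin 2) (Fin 2) (ZMod m))ˣ, ∃ l : List ℤ, Word12 l ∧ (γ ∈ H m → up m l = γ⁻¹ * g) := by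
    intro γ
    by_cases hγ : γ ∈ H m
    · obtain ⟨l, hl, hl'⟩ := (H m).mul_mem ((H m).inv_mem hγ) hg
      exact ⟨l, hl, fun _ => hl'⟩
    · exact ⟨[], by intro a ha; simp at ha, fun h => absurd h hγ⟩
  choose f hf1 hf2 using hf
  have hfin : Finite (Matrix (Fin 2) (Fin 2) (ZMod m))ˣ := inferInstance
  have : Fintype (Matrix (Fin 2) (Fin 2) (ZMod m))ˣ := Fintype.ofFinite _
  obtain ⟨G, hG⟩ : ∃ G : ℕ, G = Fintype.card (Matrix (Fin 2) (Fin 2) (ZMod m))ˣ := ⟨_, rfl⟩
  have hGpos : 0 < G := by rw [hG]; exact Fintype.card_pos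
  obtain ⟨V, hV⟩ : ∃ V : List ℤ → List ℤ, ∀ w, V w = w ++ f (up m w) := ⟨fun w => w ++ f (up m w), fun w => rfl⟩
  have hVw : ∀ w, Word12 w → Word12 (V w) := fun w hw => by
    rw [hV]
    exact word_append hw (hf1 _)
  have hVg : ∀ w, Word12 w → up m (V w) = g := fun w hw => by
    rw [hV, up_append, hf2 (up m w) ⟨w, hw, rfl⟩, mul_inv_cancel_left]
  have hVinj : ∀ w w', up m w = up m w' → V w = V w' → w = w' := by
    intro w w' h h'
    rw [hV, hV, h] at h'
    exact List.append_cancel_right h'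
  obtain ⟨φ, hφdef⟩ : ∃ φ : List ℤ → ℤ, ∀ w, φ w = KK (V w) := ⟨fun w => KK (V w), fun w => rfl⟩
  have hφ : ∀ w, Word12 w → 1 ≤ φ w ∧ φ w ≡ 2 * c [ZMOD m] ∧ Admissible (φ w - 1) ∧
      Admissible (φ w) ∧ Admissible (φ w + 1) := by
    intro w hw
    rw [hφdef]
    exact ⟨(KK_size (hVw w hw)).1, hcong _ (hVg w hw), adm3 _ (hVw w hw)⟩
  -- fibres
  have fiber : ∀ F : Finset (List ℤ), (∀ w ∈ F, Word12 w) → ∀ n : ℤ, 1 ≤ n →
      (F.filter (fun w => φ w = n)).card ≤ n.natAbs.divisors.card * G := by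
    intro F hF n hn
    have h1 : (F.filter (fun w => φ w = n)).card ≤
        (n.natAbs.divisors ×ˢ
          (Finset.univ : Finset (Matrix (Fin 2) (Fin 2) (ZMod m))ˣ)).card := by
      apply Finset.card_le_card_of_injOn (fun w => ((AA (V w)).natAbs, up m w))
      · intro w hw
        rw [Finset.mem_coe, Finset.mem_filter] at hw
        obtain ⟨hwF, hwn⟩ := hw
        rw [Finset.mem_coe, Finset.mem_product, Nat.mem_divisors]
        refine ⟨⟨Int.natAbs_dvd_natAbs.mpr ?_, ?_⟩, Finset.mem_univ _⟩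
        · rw [← hwn, hφdef, KK_eq]
          exact ⟨2 * BB (V w), by ring⟩
        · rw [Int.natAbs_ne_zero]
          omega
      · intro w hw w' hw' heq
        rw [Finset.mem_coe, Finset.mem_filter] at hw hw'
        obtain ⟨hwF, hwn⟩ := hw
        obtain ⟨hwF', hwn'⟩ := hw'
        have hwW := hVw w (hF w hwF)
        have hwW' := hVw w' (hF w' hwF')
        simp only [Prod.mk.injEq] at heq
        obtain ⟨hx, hup⟩ := heq
        have wd2 : Word12 [2] := by
          intro a ha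
          right
          exact List.mem_singleton.mp ha
        have pos : ∀ v, Word12 v → 1 ≤ AA v := fun v hv =>
          (growth _ (word_append (word_append wd2 hv) wd2)).1
        have p1 := pos _ hwW
        have p2 := pos _ hwW'
        have hA : AA (V w) = AA (V w') := by omega
        have hB : BB (V w) = BB (V w') := by
          have h2 : 2 * (AA (V w) * BB (V w)) = 2 * (AA (V w') * BB (V w')) := by
            rw [← KK_eq, ← KK_eq, ← hφdef, ← hφdef, hwn, hwn']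
          rw [← hA] at h2
          have h3 : AA (V w) * BB (V w) = AA (V w) * BB (V w') := by linarith
          exact mul_left_cancel₀ (by omega) h3
        exact hVinj _ _ hup (AB_inj hwW hwW' hA hB)
    rw [Finset.card_product, Finset.card_univ, ← hG] at h1
    exact h1
  -- sizes
  obtain ⟨M, hM⟩ := (Set.finite_range (fun γ : (Matrix (Fin 2) (Fin 2) (ZMod m))ˣ =>
    nrm (f γ))).bddAbove
  have hM' : ∀ γ, nrm (f γ) ≤ M := fun γ => hM ⟨γ, rfl⟩
  have hM1 : 1 ≤ M := (nrm_pos _ (hf1 1)).trans (hM' _)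
  obtain ⟨S, hSdef⟩ : ∃ S : ℤ, S = 480 * (4 * M) ^ 2 := ⟨_, rfl⟩
  have hSpos : 0 < S := by rw [hSdef]; positivity
  have hS : ∀ w, Word12 w → φ w ≤ S * cmat w 0 0 ^ 2 := by
    intro w hw
    rw [hφdef]
    refine (KK_size (hVw w hw)).2.trans ?_
    have h1 : nrm (V w) ≤ (4 * cmat w 0 0) * M := by
      rw [hV]
      refine (nrm_append _ _ hw (hf1 _)).trans ?_
      have h2 := (nrm_bd w hw).2
      have h3 := nrm_pos w hw
      have h4 := nrm_pos _ (hf1 (up m w))
      exact mul_le_mul h2 (hM' _) (by omega) (by omega)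
    have h2 : 0 ≤ nrm (V w) := by have := nrm_pos _ (hVw w hw); omega
    have h3 := pow_le_pow_left₀ h2 h1 2
    rw [hSdef]
    calc 480 * nrm (V w) ^ 2 ≤ 480 * ((4 * cmat w 0 0) * M) ^ 2 := by linarith
      _ = 480 * (4 * M) ^ 2 * cmat w 0 0 ^ 2 := by ring
  -- divisor bound
  obtain ⟨C, hCpos, hC⟩ := divisor_bound 10000 (by norm_num)
  have hSr : (0 : ℝ) < S := by exact_mod_cast hSpos
  have hCr : (0 : ℝ) < C := by exact_mod_cast hCpos
  have hGr : (0 : ℝ) < G := by exact_mod_cast hGpos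
  obtain ⟨N₁, hN₁⟩ := asym (20 * (S : ℝ) ^ (35 / 66 : ℝ) * G) C hCr
  refine ⟨max N₁ (max 1 S.toNat), fun N hN => ?_⟩
  have hNa : N₁ ≤ N := (le_max_left _ _).trans hN
  have hNb : 1 ≤ N := (le_max_left _ _).trans ((le_max_right _ _).trans hN)
  have hNc : S.toNat ≤ N := (le_max_right _ _).trans ((le_max_right _ _).trans hN)
  have hNS : S ≤ N := by omega
  have hNr : (0 : ℝ) < N := by exact_mod_cast hNb
  have hN1r : (1 : ℝ) ≤ N := by exact_mod_cast hNb
  have hNSr : (S : ℝ) ≤ N := by exact_mod_cast hNS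
  obtain ⟨Y, hYdef⟩ : ∃ Y : ℝ, Y = ((N : ℝ) / S) ^ (1 / 2 : ℝ) := ⟨_, rfl⟩
  have hquo : 1 ≤ (N : ℝ) / S := by
    rw [le_div_iff₀ (by positivity)]; linarith
  have hY1 : 1 ≤ Y := by rw [hYdef]; exact Real.one_le_rpow hquo (by norm_num)
  have hY2 : Y ^ 2 = (N : ℝ) / S := by
    rw [hYdef, ← Real.rpow_natCast, ← Real.rpow_mul (by positivity)]
    norm_num
  have hY3 : Y ^ (35 / 33 : ℝ) = (N : ℝ) ^ (35 / 66 : ℝ) / (S : ℝ) ^ (35 / 66 : ℝ) := by
    rw [hYdef, ← Real.rpow_mul (by positivity), ← Real.div_rpow (by positivity) (by positivity)]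
    norm_num
  obtain ⟨F, hF, hFc⟩ := words_count Y hY1
  have hFw : ∀ w ∈ F, Word12 w := fun w hw => (hF w hw).1
  have hup : ∀ w ∈ F, φ w ≤ N := by
    intro w hw
    have h1 := hS w (hFw w hw)
    have h2 := (hF w hw).2
    have h3 : (0 : ℝ) ≤ cmat w 0 0 := by
      have := (growth w (hFw w hw)).1
      exact_mod_cast (by omega : 0 ≤ cmat w 0 0)
    have h4 : (cmat w 0 0 : ℝ) ^ 2 ≤ (N : ℝ) / S := by
      rw [← hY2]; exact pow_le_pow_left₀ h3 h2 2
    have h5 : (S : ℝ) * (cmat w 0 0 : ℝ) ^ 2 ≤ N := by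
      rw [le_div_iff₀ (by positivity)] at h4; linarith
    have h6 : S * cmat w 0 0 ^ 2 ≤ N := by exact_mod_cast h5
    omega
  obtain ⟨R, hR⟩ : ∃ R : ℝ, R = (C * (N : ℝ) ^ 2) ^ (1 / 10000 : ℝ) := ⟨_, rfl⟩
  have hR0 : 0 ≤ R := by rw [hR]; positivity
  have hcard : F.card ≤ (⌊R⌋₊ * G) * (F.image φ).card := by
    apply Finset.card_le_mul_card_image
    intro n hn
    rw [Finset.mem_image] at hn
    obtain ⟨w, hw, hwn⟩ := hn
    have hn1 : 1 ≤ n := by
      rw [← hwn]
      exact (hφ w (hFw w hw)).1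
    refine (fiber F hFw n hn1).trans (Nat.mul_le_mul_right _ (Nat.le_floor ?_))
    have h2 := hC n.natAbs (by rw [Int.natAbs_ne_zero]; omega)
    have h3 : n ≤ N := by rw [← hwn]; exact hup w hw
    obtain ⟨a, ha⟩ : ∃ a : ℕ, a = n.natAbs := ⟨_, rfl⟩
    rw [← ha] at h2 ⊢
    have h5 : a ≤ N := by omega
    have h6 : (a : ℝ) ≤ (N : ℝ) ^ 2 := by
      have h7 : (a : ℝ) ≤ N := by exact_mod_cast h5
      nlinarith
    have h7 : ((a.divisors.card : ℝ)) ^ 10000 ≤ C * a := by
      rw [← Nat.cast_pow, ← Nat.cast_mul]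
      exact Nat.cast_le.mpr h2
    have h8 : ((a.divisors.card : ℝ)) ^ 10000 ≤ C * (N : ℝ) ^ 2 :=
      h7.trans (mul_le_mul_of_nonneg_left h6 hCr.le)
    generalize hb : (a.divisors.card : ℝ) = b at *
    have hb0 : 0 ≤ b := by rw [← hb]; exact Nat.cast_nonneg _
    have h9 : (b ^ 10000) ^ (1 / 10000 : ℝ) = b := by
      rw [one_div]
      exact Real.pow_rpow_inv_natCast hb0 (by norm_num)
    rw [← h9, hR]
    exact Real.rpow_le_rpow (pow_nonneg hb0 _) h8 (by norm_num)
  set Z : Set ℤ := {n : ℤ | 0 < n ∧ n ≤ N ∧ n ≡ 2 * c [ZMOD m] ∧ Admissible (n - 1) ∧ Admissible n ∧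
    Admissible (n + 1)} with hZ
  have hZfin : Z.Finite := (Set.finite_Icc (0 : ℤ) N).subset (by
    intro n hn
    exact ⟨hn.1.le, hn.2.1⟩)
  have hsub : ((F.image φ : Finset ℤ) : Set ℤ) ⊆ Z := by
    intro n hn
    rw [Finset.mem_coe, Finset.mem_image] at hn
    obtain ⟨w, hw, rfl⟩ := hn
    obtain ⟨h1, h2, h3, h4, h5⟩ := hφ w (hFw w hw)
    exact ⟨by omega, hup w hw, h2, h3, h4, h5⟩
  have hle : (F.image φ).card ≤ Z.ncard := by
    rw [← Set.ncard_coe_finset]
    exact Set.ncard_le_ncard hsub hZfin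
  by_contra hcon
  push Not at hcon
  have hmain := hN₁ N hNa
  rw [← hR] at hmain
  have q1 : (F.card : ℝ) ≤ (R * G) * Z.ncard := by
    have h1 : (F.card : ℝ) ≤ ((⌊R⌋₊ : ℝ) * G) * (F.image φ).card := by exact_mod_cast hcard
    have h2 : (⌊R⌋₊ : ℝ) ≤ R := Nat.floor_le hR0
    have h3 : ((F.image φ).card : ℝ) ≤ Z.ncard := by exact_mod_cast hle
    calc (F.card : ℝ) ≤ ((⌊R⌋₊ : ℝ) * G) * (F.image φ).card := h1
      _ ≤ (R * G) * Z.ncard := by gcongr
  have hS66 : (0 : ℝ) < (S : ℝ) ^ (35 / 66 : ℝ) := by positivity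
  rw [hY3] at hFc
  have q2 : 1 / 20 * ((N : ℝ) ^ (35 / 66 : ℝ) / (S : ℝ) ^ (35 / 66 : ℝ))
      ≤ (R * G) * (N : ℝ) ^ (0.53 : ℝ) :=
    hFc.trans (q1.trans (mul_le_mul_of_nonneg_left hcon.le (by positivity)))
  have q3 : (N : ℝ) ^ (35 / 66 : ℝ)
      ≤ 20 * (S : ℝ) ^ (35 / 66 : ℝ) * G * (N : ℝ) ^ (0.53 : ℝ) * R := by
    have h1 : (N : ℝ) ^ (35 / 66 : ℝ) = (20 * (S : ℝ) ^ (35 / 66 : ℝ))
        * (1 / 20 * ((N : ℝ) ^ (35 / 66 : ℝ) / (S : ℝ) ^ (35 / 66 : ℝ))) := by
      field_simp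
    rw [h1]
    calc (20 * (S : ℝ) ^ (35 / 66 : ℝ))
        * (1 / 20 * ((N : ℝ) ^ (35 / 66 : ℝ) / (S : ℝ) ^ (35 / 66 : ℝ)))
        ≤ (20 * (S : ℝ) ^ (35 / 66 : ℝ)) * ((R * G) * (N : ℝ) ^ (0.53 : ℝ)) :=
          mul_le_mul_of_nonneg_left q2 (by positivity)
      _ = _ := by ring
  linarith

end Pool.Agent.H75.ZT
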